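import Pool.Agent.GTO.StmtsB

/-! Squad GTO, row FX3: at most three real flexes. -/

namespace Pool.Agent.GTO.H90

open Finset
open scoped Classical

/-- FX3 -/
theorem fx3 (hBas : BasStmt) (hLn3 : Ln3Stmt) (hSgl : SglStmt) : Fx3Stmt := by
  intro c G _ φ hNL hG T hclo htor hpts
  by_contra hcon
  have hcard : 3 < T.card := not_le.mp hcon
  choose! v hv using hpts
  have hPI : PI (fun g : {x // x ∈ T} => v g.1) := by
    intro i j hij h0
    apply hij
    apply Subtype.ext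
    have h1 := (hG.par (v i.1) (v j.1) (hv i.1 i.2).1 (hv j.1 j.2).1).2 h0
    rw [(hv i.1 i.2).2, (hv j.1 j.2).2] at h1
    exact h1
  by_cases hS : Spn (fun g : {x // x ∈ T} => v g.1)
  · obtain ⟨g, h, hgh, hln⟩ := hSgl _ _ hPI hS
    have hgT := g.2
    have hhT := h.2
    have hk : -g.1 - h.1 ∈ T := hclo g.1 hgT h.1 hhT
    have hne : g.1 ≠ h.1 := fun e => hgh (Subtype.ext e)
    have h3g := htor g.1 hgT
    have h3h := htor h.1 hhT
    have hkg : (⟨-g.1 - h.1, hk⟩ : {x // x ∈ T}) ≠ g := by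
      intro e
      have e1 : -g.1 - h.1 = g.1 := congrArg Subtype.val e
      apply hne
      have e2 : h.1 = -g.1 - g.1 := by
        rw [← sub_eq_zero]
        have e3 : -g.1 - h.1 - g.1 = 0 := sub_eq_zero.mpr e1
        calc h.1 - (-g.1 - g.1) = -(-g.1 - h.1 - g.1) := by abel
          _ = 0 := by rw [e3, neg_zero]
      rw [e2, ← sub_eq_zero]
      calc g.1 - (-g.1 - g.1) = g.1 + g.1 + g.1 := by abel
        _ = 0 := h3g
    have hkh : (⟨-g.1 - h.1, hk⟩ : {x // x ∈ T}) ≠ h := by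
      intro e
      have e1 : -g.1 - h.1 = h.1 := congrArg Subtype.val e
      apply hne
      have e2 : g.1 = -h.1 - h.1 := by
        rw [← sub_eq_zero]
        have e3 : -g.1 - h.1 - h.1 = 0 := sub_eq_zero.mpr e1
        calc g.1 - (-h.1 - h.1) = -(-g.1 - h.1 - h.1) := by abel
          _ = 0 := by rw [e3, neg_zero]
      rw [e2, eq_comm, ← sub_eq_zero]
      calc h.1 - (-h.1 - h.1) = h.1 + h.1 + h.1 := by abel
        _ = 0 := h3h
    have hmem : (⟨-g.1 - h.1, hk⟩ : {x // x ∈ T}) ∈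
        ln (fun g : {x // x ∈ T} => v g.1) g h := by
      rw [ln, mem_filter]
      refine ⟨mem_univ _, ?_⟩
      refine (hG.col (v g.1) (v h.1) (v (-g.1 - h.1)) (hv _ hgT).1 (hv _ hhT).1 (hv _ hk).1
        (hPI g h hgh) (hPI h _ (Ne.symm hkh)) (hPI _ g hkg)).2 ?_
      rw [(hv _ hgT).2, (hv _ hhT).2, (hv _ hk).2]
      abel
    rw [hln] at hmem
    rcases (@Finset.mem_insert _ (_) _ _ _).mp hmem with e | e
    · exact hkg e
    · exact hkh (mem_singleton.mp e)
  · -- all points on one line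
    have hS' : ∀ i j k : {x // x ∈ T}, dt (v i.1) (v j.1) (v k.1) = 0 := by
      intro i j k
      by_contra h0
      exact hS ⟨i, j, k, h0⟩
    obtain ⟨i, hi, j, hj, hij⟩ := Finset.one_lt_card.mp (by omega : 1 < T.card)
    have hw : cr (v i) (v j) ≠ 0 :=
      hPI ⟨i, hi⟩ ⟨j, hj⟩ (fun e => hij (congrArg Subtype.val e))
    have h3 := hLn3 c (cr (v i) (v j)) hNL hw G T v
      (fun k hk => ⟨(hv k hk).1.2.1, by
        rw [(hBas.1 (v i) (v j) (v k)).1]
        exact hS' ⟨i, hi⟩ ⟨j, hj⟩ ⟨k, hk⟩⟩)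
      (fun k hk l hl hkl => hPI ⟨k, hk⟩ ⟨l, hl⟩ (fun e => hkl (congrArg Subtype.val e)))
    omega

end Pool.Agent.GTO.H90
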