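import Pool.Agent.GTO.StmtsA

/-! Squad GTO, row LVX: flags at a point -/

set_option autoImplicit false

namespace Pool.Agent.GTO.H90

open Finset Pool.Agent.GTO
open scoped Classical

variable {ι : Type} [Fintype ι]

theorem sg_sq (b : Bool) : sg b * sg b = 1 := by cases b <;> norm_num [sg]

theorem sg_ne (b : Bool) : sg b ≠ 0 := by cases b <;> norm_num [sg]

theorem sg_inj {b c : Bool} (h : 0 < sg b * sg c) : b = c := by
  cases b <;> cases c
  · rfl
  · exfalso; norm_num [sg] at h
  · exfalso; norm_num [sg] at h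
  · rfl

theorem cr_smul (s t : ℝ) (u v : V) : cr (s • u) (t • v) = (s * t) • cr u v := by
  funext k
  fin_cases k <;> simp [cr] <;> ring

theorem cr_lin (s t : ℝ) (u v : V) : cr u (s • u + t • v) = t • cr u v := by
  funext k
  fin_cases k <;> simp [cr] <;> ring

theorem dt_smul (r s t : ℝ) (u v w : V) : dt (r • u) (s • v) (t • w) = r * s * t * dt u v w := by
  simp only [dt, Pi.smul_apply, smul_eq_mul]
  ring

theorem dt_mid (s t : ℝ) (u v w : V) : dt u (s • u + t • v) w = t * dt u v w := by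
  simp only [dt, Pi.add_apply, Pi.smul_apply, smul_eq_mul]
  ring

theorem ip_smul_left (t : ℝ) (u v : V) : ip (t • u) v = t * ip u v := by
  simp only [ip, Pi.smul_apply, smul_eq_mul]
  ring

theorem ip_pos {v : V} (h : v ≠ 0) : 0 < ip v v := by
  rcases lt_or_eq_of_le (show 0 ≤ ip v v by
    simp only [ip]; nlinarith [sq_nonneg (v 0), sq_nonneg (v 1), sq_nonneg (v 2)]) with h1 | h1
  · exact h1
  · exfalso
    apply h
    simp only [ip] at h1
    have h0 : v 0 = 0 := by nlinarith [sq_nonneg (v 0), sq_nonneg (v 1), sq_nonneg (v 2)]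
    have h2 : v 1 = 0 := by nlinarith [sq_nonneg (v 0), sq_nonneg (v 1), sq_nonneg (v 2)]
    have h3 : v 2 = 0 := by nlinarith [sq_nonneg (v 0), sq_nonneg (v 1), sq_nonneg (v 2)]
    funext k
    fin_cases k
    · exact h0
    · exact h2
    · exact h3

theorem key (hB : BasStmt) (hG : GdwStmt) (a : ι → V) (hPI : PI a) (p q : ι) (hpq : q ≠ p)
    (d : Dat ι) (hd : Good a d) (hu : d.u = p) (hq : q ∈ ln a d.u d.v) :
    ∃ m : ℝ, m ≠ 0 ∧
      cr (bv a d.s p) (bv a d.s d.v) = m • cr (a p) (a q) ∧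
      (∀ l, l ∉ ln a d.u d.v → 0 < m * sg (d.s l) * dt (a p) (a q) (a l)) ∧
      ∀ l ∈ ln a d.u d.v, l ≠ p → ∃ t : ℝ, 0 < t ∧
        (sg (d.s p) * sg (d.s l)) • cr (a p) (a l) = (t * m) • cr (a p) (a q) := by
  subst hu
  obtain ⟨h1, h2, h3⟩ := hd
  obtain ⟨-, -, hln1, hln2, hln3⟩ := hG ι a hPI d ⟨h1, h2, h3⟩
  simp only [List.nodup_cons, List.mem_cons, List.not_mem_nil, or_false, not_or, not_false_eq_true,
    List.nodup_nil, and_true] at h1
  obtain ⟨⟨huv, huw, huu', huv', huw'⟩, ⟨hvw, hvu', hvv', hvw'⟩, ⟨hwu', hwv', hww'⟩,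
    ⟨hu'v', hu'w'⟩, hv'w'⟩ := h1
  have hB5 := hB.2.2.2.1
  -- `a v` is a combination of `a u`, `a q`
  have hcq : cr (a d.u) (a q) ≠ 0 := hPI _ _ (Ne.symm hpq)
  have hcv : cr (a d.u) (a d.v) ≠ 0 := hPI _ _ huv
  have hdq : dt (a d.u) (a d.v) (a q) = 0 := by
    simpa [ln] using hq
  have hdq' : dt (a d.u) (a q) (a d.v) = 0 := by
    have : dt (a d.u) (a q) (a d.v) = - dt (a d.u) (a d.v) (a q) := by
      simp only [dt]; ring
    rw [this, hdq, neg_zero]
  obtain ⟨s, t, hst⟩ := (hB5 _ _ _ hcq).1 hdq'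
  have hcvq : cr (a d.u) (a d.v) = t • cr (a d.u) (a q) := by
    rw [hst, cr_lin]
  have ht0 : t ≠ 0 := by
    rintro rfl
    apply hcv
    rw [hcvq, zero_smul]
  have hx : cr (bv a d.s d.u) (bv a d.s d.v) =
      (sg (d.s d.u) * sg (d.s d.v) * t) • cr (a d.u) (a q) := by
    simp only [bv]
    rw [cr_smul, hcvq, smul_smul]
  refine ⟨sg (d.s d.u) * sg (d.s d.v) * t, ?_, hx, ?_, ?_⟩
  · exact mul_ne_zero (mul_ne_zero (sg_ne _) (sg_ne _)) ht0
  · intro l hl
    have hpos : 0 < dt (bv a d.s d.u) (bv a d.s d.v) (bv a d.s l) := by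
      rw [hln3] at hl
      simp only [mem_insert, mem_singleton, not_or] at hl
      obtain ⟨hlu, hlv, hlw'⟩ := hl
      by_cases hlw : l = d.w
      · rw [hlw]; exact h2
      · obtain ⟨-, -, h4, h5⟩ := h3 l hlu hlv hlw
        exact lt_of_le_of_ne h4 fun h6 => hlw' (h5.1 h6.symm)
    rw [← (hB.1 _ _ _).1, hx, ip_smul_left] at hpos
    have h7 : ip (cr (a d.u) (a q)) (bv a d.s l) = sg (d.s l) * dt (a d.u) (a q) (a l) := by
      rw [← (hB.1 _ _ _).1]
      simp only [bv, ip, Pi.smul_apply, smul_eq_mul]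
      ring
    rw [h7] at hpos
    calc (0 : ℝ) < _ := hpos
      _ = _ := by ring
  · intro l hl hlu
    rw [hln3] at hl
    simp only [mem_insert, mem_singleton] at hl
    rcases hl with hl | hl | hl
    · exact absurd hl hlu
    · subst hl
      refine ⟨1, one_pos, ?_⟩
      rw [one_mul, ← hx]
      simp only [bv]
      rw [cr_smul]
    · subst hl
      -- `b w'` is a combination of `b u` and `b v` with positive second coefficient
      obtain ⟨-, ⟨h4, h5⟩, h6, h7⟩ := h3 d.w' (Ne.symm huw') (Ne.symm hvw') (Ne.symm hww')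
      have h8 : dt (bv a d.s d.u) (bv a d.s d.v) (bv a d.s d.w') = 0 := h7.2 rfl
      have hbuv : cr (bv a d.s d.u) (bv a d.s d.v) ≠ 0 := by
        rw [hx]
        exact smul_ne_zero (mul_ne_zero (mul_ne_zero (sg_ne _) (sg_ne _)) ht0) hcq
      obtain ⟨s', t', hst'⟩ := (hB5 _ _ _ hbuv).1 h8
      have h9 : 0 < dt (bv a d.s d.u) (bv a d.s d.w') (bv a d.s d.w) :=
        lt_of_le_of_ne h4 fun h10 => hv'w' (h5.1 h10.symm).symm
      rw [hst', dt_mid] at h9
      have ht' : 0 < t' := by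
        by_contra hcon
        push Not at hcon
        nlinarith
      refine ⟨t', ht', ?_⟩
      rw [← smul_smul t', ← hx, ← cr_lin s' t', ← hst']
      simp only [bv]
      rw [cr_smul]

/-- LVX -/
theorem lvx (hB : BasStmt) (hC : CirStmt) (hG : GdwStmt) (hU : UnqStmt) : LvxStmt := by
  intro ι _ a hPI hn
  obtain ⟨hU1, hU2, -, -⟩ := hU ι a hPI
  constructor
  · intro p
    have hC2 := (hC ι a hPI hn).2 p
    have h1 : {d : Dat ι | Good a d ∧ d.u = p}.ncard =
        (univ.filter fun σ => (Tope a σ ∧ Tope a (flp σ p)) ∧ IsGood a σ).card := by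
      rw [← Set.ncard_coe_finset]
      refine Set.ncard_congr (fun d _ => d.s) ?_ ?_ ?_
      · rintro d ⟨hd, hu⟩
        obtain ⟨h2, h3, -⟩ := hG ι a hPI d hd
        have h4 : p ∈ walls a d.s := by rw [h3, ← hu]; simp
        simp only [walls, mem_filter, mem_univ, true_and] at h4
        simp only [coe_filter, mem_univ, true_and, Set.mem_ofPred_eq]
        exact ⟨⟨h2, h4⟩, d, rfl, hd⟩
      · rintro d e ⟨hd, hu⟩ ⟨he, hu'⟩ hde
        exact hU2 d e hd he hde (hu.trans hu'.symm)
      · intro σ hσ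
        simp only [coe_filter, mem_univ, true_and, Set.mem_ofPred_eq] at hσ
        obtain ⟨⟨h2, h3⟩, d, hds, hd⟩ := hσ
        obtain ⟨-, h5, -⟩ := hG ι a hPI d hd
        have h4 : p ∈ walls a d.s := by
          simp only [walls, mem_filter, mem_univ, true_and]
          rw [hds]; exact h3
        rw [h5] at h4
        simp only [mem_insert, mem_singleton] at h4
        rcases h4 with h4 | h4 | h4
        · exact ⟨d, ⟨hd, h4.symm⟩, hds⟩
        · exact ⟨rot d, ⟨hU1 d hd, h4.symm⟩, hds⟩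
        · exact ⟨rot (rot d), ⟨hU1 _ (hU1 d hd), h4.symm⟩, hds⟩
    have h2 : (univ.filter fun σ => Tope a σ ∧ Tope a (flp σ p) ∧ ¬ IsGood a σ) =
        (univ.filter fun σ => (Tope a σ ∧ Tope a (flp σ p)) ∧ ¬ IsGood a σ) := by
      ext σ
      simp only [mem_filter, mem_univ, true_and, and_assoc]
    have h3 := Finset.card_filter_add_card_filter_not
      (s := univ.filter fun σ => Tope a σ ∧ Tope a (flp σ p)) (fun σ => IsGood a σ)
    rw [filter_filter, filter_filter] at h3
    rw [h1, h2, ← hC2]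
    exact h3
  · intro p ℓ
    by_cases hne : ∃ d : Dat ι, Good a d ∧ d.u = p ∧ ln a d.u d.v = ℓ
    · obtain ⟨d₀, hd₀, hu₀, hℓ₀⟩ := hne
      have hq0 : d₀.v ≠ p := by
        rw [← hu₀]
        have := hd₀.1
        simp only [List.nodup_cons, List.mem_cons, not_or] at this
        exact Ne.symm this.1.1
      have hqℓ : d₀.v ∈ ℓ := by
        rw [← hℓ₀]
        exact ((hB.2.2.2.2.2 ι a hPI).2.1 _ _ (by rw [hu₀]; exact Ne.symm hq0)).2
      generalize d₀.v = q at hq0 hqℓ
      have hc0 : cr (a p) (a q) ≠ 0 := hPI _ _ (Ne.symm hq0)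
      have hcc := ip_pos hc0
      let g : Dat ι → Bool × Bool := fun d =>
        (decide (0 < ip (cr (bv a d.s p) (bv a d.s d.v)) (cr (a p) (a q))), d.s p)
      have h4 : (Set.univ : Set (Bool × Bool)).ncard = 4 := by
        rw [Set.ncard_univ]
        simp
      rw [← h4]
      refine Set.ncard_le_ncard_of_injOn g (fun _ _ => Set.mem_univ _) ?_ Set.finite_univ
      rintro d ⟨hd, hu, hℓ⟩ e ⟨he, hu', hℓ'⟩ hde
      obtain ⟨m, hm0, hm1, hm2, hm3⟩ := key hB hG a hPI p q hq0 d hd hu (by rw [hℓ]; exact hqℓ)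
      obtain ⟨m', hm0', hm1', hm2', hm3'⟩ :=
        key hB hG a hPI p q hq0 e he hu' (by rw [hℓ']; exact hqℓ)
      rw [hℓ] at hm2 hm3
      rw [hℓ'] at hm2' hm3'
      simp only [g, Prod.mk.injEq, decide_eq_decide] at hde
      obtain ⟨hde1, hde2⟩ := hde
      rw [hm1, hm1', ip_smul_left, ip_smul_left, mul_pos_iff_of_pos_right hcc,
        mul_pos_iff_of_pos_right hcc] at hde1
      have hmm : 0 < m * m' := by
        rcases lt_or_gt_of_ne hm0 with h5 | h5
        · rcases lt_or_gt_of_ne hm0' with h6 | h6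
          · exact mul_pos_of_neg_of_neg h5 h6
          · exact absurd (hde1.2 h6) (not_lt.2 h5.le)
        · exact mul_pos h5 (hde1.1 h5)
      refine hU2 d e hd he ?_ (hu.trans hu'.symm)
      funext l
      by_cases hlp : l = p
      · rw [hlp]; exact hde2
      by_cases hl : l ∈ ℓ
      · obtain ⟨t, ht, h5⟩ := hm3 l hl hlp
        obtain ⟨t', ht', h5'⟩ := hm3' l hl hlp
        apply sg_inj
        have hcl : cr (a p) (a l) ≠ 0 := hPI _ _ (Ne.symm hlp)
        have hcll := ip_pos hcl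
        -- inner products with `cr (a p) (a l)`
        have h6 := congrArg (fun y => ip y (cr (a p) (a l))) h5
        have h6' := congrArg (fun y => ip y (cr (a p) (a l))) h5'
        simp only [ip_smul_left] at h6 h6'
        rw [← hde2] at h6'
        have hsq := sg_sq (d.s p)
        have hr : ip (cr (a p) (a q)) (cr (a p) (a l)) ≠ 0 := by
          intro h7
          rw [h7, mul_zero] at h6
          exact (mul_ne_zero (mul_ne_zero (sg_ne _) (sg_ne _)) hcll.ne') h6
        have hr2 : 0 < ip (cr (a p) (a q)) (cr (a p) (a l)) ^ 2 := by positivity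
        have h8 : (sg (d.s l) * sg (e.s l)) * (ip (cr (a p) (a l)) (cr (a p) (a l))) ^ 2 =
            (t * t') * (m * m') * ip (cr (a p) (a q)) (cr (a p) (a l)) ^ 2 := by
          have h9 := congrArg₂ (fun x y => x * y) h6 h6'
          calc _ = (sg (d.s p) * sg (d.s p)) * (sg (d.s l) * sg (e.s l)) *
                (ip (cr (a p) (a l)) (cr (a p) (a l))) ^ 2 := by rw [hsq, one_mul]
            _ = (sg (d.s p) * sg (d.s l) * ip (cr (a p) (a l)) (cr (a p) (a l))) *
                (sg (d.s p) * sg (e.s l) * ip (cr (a p) (a l)) (cr (a p) (a l))) := by ring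
            _ = _ := by rw [h9]; ring
        have h10 : 0 < (t * t') * (m * m') * ip (cr (a p) (a q)) (cr (a p) (a l)) ^ 2 :=
          mul_pos (mul_pos (mul_pos ht ht') hmm) hr2
        rw [← h8] at h10
        exact pos_of_mul_pos_left h10 (by positivity)
      · have h5 := hm2 l hl
        have h5' := hm2' l hl
        apply sg_inj
        have h6 := mul_pos h5 h5'
        have h7 : m * sg (d.s l) * dt (a p) (a q) (a l) * (m' * sg (e.s l) * dt (a p) (a q) (a l)) =
            (sg (d.s l) * sg (e.s l)) * ((m * m') * dt (a p) (a q) (a l) ^ 2) := by ring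
        rw [h7] at h6
        exact pos_of_mul_pos_left h6 (mul_nonneg hmm.le (sq_nonneg _))
    · have h5 : {d : Dat ι | Good a d ∧ d.u = p ∧ ln a d.u d.v = ℓ} = ∅ := by
        ext d
        simp only [Set.mem_ofPred_eq, Set.mem_empty_iff_false, iff_false]
        intro h6
        exact hne ⟨d, h6⟩
      rw [h5, Set.ncard_empty]
      omega

end Pool.Agent.GTO.H90
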